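import Mathlib

/-!
# Greedy choice of residues in gcd recursions

`a (n+1) = a n - gcd (a n) (V (n+1) e)` as long as `a n = N - s - n - e`. The residue of `N` is
chosen so that every prime divides the gcd at the first time it divides the second argument; the
excess `e` is then at least the sum of `q - 1` over all primes `q` seen.
-/

set_option autoImplicit false

namespace Pool.Agent.X32.Gcr

open Finset

/-- the sum of `q - 1` over the primes dividing `M` -/
def wt (M : ℕ) : ℕ := ∑ q ∈ M.primeFactors, (q - 1)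

lemma prod_ge (s : Finset ℕ) (hs : ∀ q ∈ s, 1 ≤ q) : 1 + ∑ q ∈ s, (q - 1) ≤ ∏ q ∈ s, q := by
  classical
  induction s using Finset.induction_on with
  | empty => simp
  | insert a s ha ih =>
    rw [Finset.sum_insert ha, Finset.prod_insert ha]
    have h1 := ih (fun q hq => hs q (Finset.mem_insert_of_mem hq))
    have h2 := hs a (Finset.mem_insert_self a s)
    obtain ⟨b, rfl⟩ : ∃ b, a = b + 1 := ⟨a - 1, by omega⟩
    simp only [Nat.add_sub_cancel]
    nlinarith [Nat.zero_le (∑ q ∈ s, (q - 1)), Nat.zero_le b]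

/-- one step: choose the residue modulo the new primes -/
lemma step (M r s V : ℕ) (hM : M ≠ 0) (hV : V ≠ 0) :
    ∃ r' g : ℕ, r' ≡ r [MOD M] ∧ wt (M.lcm V) + 1 ≤ wt M + g ∧ 1 ≤ g ∧ g ≤ V ∧
      ∀ N : ℤ, N ≡ r' [ZMOD V] → Int.gcd (N - s) V = g := by
  classical
  set S : Finset ℕ := V.primeFactors \ M.primeFactors with hS
  set F : ℕ := ∏ q ∈ S, q with hF
  have hSp : ∀ q ∈ S, q.Prime := by
    intro q hq
    exact Nat.prime_of_mem_primeFactors (Finset.mem_sdiff.mp hq).1
  have hFV : F ∣ V := by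
    have h1 : F ∣ ∏ q ∈ V.primeFactors, q :=
      Finset.prod_dvd_prod_of_subset _ _ _ Finset.sdiff_subset
    exact h1.trans (Nat.prod_primeFactors_dvd V)
  have hcop : Nat.Coprime M F := by
    rw [hF]
    apply Nat.Coprime.prod_right
    intro q hq
    have hqp := hSp q hq
    rw [Nat.coprime_comm, hqp.coprime_iff_not_dvd]
    intro hd
    exact (Finset.mem_sdiff.mp hq).2 (Nat.mem_primeFactors.mpr ⟨hqp, hd, hM⟩)
  obtain ⟨r', h1, h2⟩ := Nat.chineseRemainder hcop r s
  refine ⟨r', Int.gcd ((r' : ℤ) - s) V, h1, ?_, ?_, ?_, ?_⟩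
  · have hFg : F ∣ Int.gcd ((r' : ℤ) - s) V := by
      apply Nat.dvd_gcd
      · rw [← Int.natCast_dvd]
        exact (Nat.modEq_iff_dvd.mp h2.symm)
      · rw [Int.natAbs_natCast]; exact hFV
    have hg0 : 0 < Int.gcd ((r' : ℤ) - s) V :=
      Int.gcd_pos_of_ne_zero_right _ (by exact_mod_cast hV)
    have h3 := Nat.le_of_dvd hg0 hFg
    have h4 := prod_ge S (fun q hq => (hSp q hq).one_lt.le)
    have h5 : wt (M.lcm V) = wt M + ∑ q ∈ S, (q - 1) := by
      unfold wt
      rw [hS, ← Finset.sum_union Finset.disjoint_sdiff]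
      congr 1
      ext q
      rw [Finset.union_sdiff_self_eq_union, Finset.mem_union, Nat.mem_primeFactors,
        Nat.mem_primeFactors, Nat.mem_primeFactors]
      constructor
      · rintro ⟨hq, hd, _⟩
        rcases hq.dvd_or_dvd_of_dvd_lcm hd with h | h
        · exact Or.inl ⟨hq, h, hM⟩
        · exact Or.inr ⟨hq, h, hV⟩
      · rintro (⟨hq, hd, _⟩ | ⟨hq, hd, _⟩)
        · exact ⟨hq, hd.trans (Nat.dvd_lcm_left _ _), Nat.lcm_ne_zero hM hV⟩
        · exact ⟨hq, hd.trans (Nat.dvd_lcm_right _ _), Nat.lcm_ne_zero hM hV⟩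
    omega
  · exact Int.gcd_pos_of_ne_zero_right _ (by exact_mod_cast hV)
  · have h3 : Int.gcd ((r' : ℤ) - s) V ∣ V := by
      have := Int.gcd_dvd_right (a := (r' : ℤ) - s) (b := (V : ℤ))
      exact_mod_cast this
    exact Nat.le_of_dvd (Nat.pos_of_ne_zero hV) h3
  · intro N hN
    have h3 : (V : ℤ) ∣ N - r' := by
      have := hN.symm.dvd
      exact this
    obtain ⟨k, hk⟩ := h3
    have h4 : N - s = ((r' : ℤ) - s) + V * k := by linarith
    rw [h4, Int.gcd_comm, Int.gcd_comm ((r' : ℤ) - s)]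
    rw [Int.gcd_add_mul_left_right]

/-- the recursion, described through the excess -/
def Rec (s : ℕ) (V : ℕ → ℕ → ℕ) (N : ℤ) (a : ℕ → ℤ) : Prop :=
  a 1 = N - s - 1 ∧ ∀ n : ℕ, 1 ≤ n → ∀ e : ℕ, a n = N - s - n - e →
    a (n + 1) = a n - (Int.gcd (a n) (V (n + 1) e) : ℕ)

/-- the greedy walk up to time `n`, stopped when the excess reaches `B` -/
lemma walk (s : ℕ) (V : ℕ → ℕ → ℕ) (hV : ∀ n e, V n e ≠ 0) (K B : ℕ) (hK : 1 ≤ K) (T : ℕ)
    (hVK : ∀ n e, n ≤ T → e < B → V n e ≤ K) :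
    ∀ n : ℕ, 1 ≤ n → n ≤ T → ∃ M r e t : ℕ, M ≠ 0 ∧ M ≤ K ^ n ∧ 1 ≤ t ∧ t ≤ n ∧ wt M ≤ e ∧
      e ≤ B + n * K ∧
      (∀ L : ℕ, (∀ k e, k ≤ n → V k e ∣ L) → M ∣ L) ∧
      (B ≤ e ∨ (t = n ∧ ∀ k, 2 ≤ k → k ≤ n → ∃ e', V k e' ∣ M)) ∧
      (∀ N : ℤ, N ≡ r [ZMOD M] → ∀ a : ℕ → ℤ, Rec s V N a → a t = N - s - t - e) := by
  intro n hn
  induction n, hn using Nat.le_induction with
  | base =>
    intro hT
    refine ⟨1, 0, 0, 1, one_ne_zero, by simpa using hK, le_rfl, le_rfl, by simp [wt], by omega,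
      fun L _ => one_dvd L, Or.inr ⟨rfl, fun k h1 h2 => by omega⟩, ?_⟩
    intro N hN a ha
    rw [ha.1]
    push_cast
    ring
  | succ n hn ih =>
    intro hT
    obtain ⟨M, r, e, t, hM0, hMK, ht1, htn, hwt, heB, hL, halt, hrec⟩ := ih (by omega)
    by_cases hBe : B ≤ e
    · refine ⟨M, r, e, t, hM0, hMK.trans (Nat.pow_le_pow_right hK (by omega)), ht1, by omega, hwt,
        by nlinarith, fun L h => hL L (fun k e hk => h k e (by omega)), Or.inl hBe, hrec⟩
    · have halt2 : t = n ∧ ∀ k, 2 ≤ k → k ≤ n → ∃ e', V k e' ∣ M := by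
        rcases halt with h | h
        · exact absurd h hBe
        · exact h
      obtain ⟨rfl, hk⟩ := halt2
      have hVle : V (t + 1) e ≤ K := hVK (t + 1) e hT (by omega)
      obtain ⟨r', g, h1, h2, h3, h4, h5⟩ := step M r (s + t + e) (V (t + 1) e) hM0 (hV _ _)
      refine ⟨M.lcm (V (t + 1) e), r', e + g - 1, t + 1, Nat.lcm_ne_zero hM0 (hV _ _), ?_,
        by omega, le_rfl, by omega, ?_, ?_, ?_, ?_⟩
      · calc M.lcm (V (t + 1) e) ≤ M * V (t + 1) e :=
              Nat.le_of_dvd (Nat.mul_pos (Nat.pos_of_ne_zero hM0) (Nat.pos_of_ne_zero (hV _ _)))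
                (Nat.lcm_dvd_mul _ _)
          _ ≤ K ^ t * K := Nat.mul_le_mul hMK hVle
          _ = K ^ (t + 1) := (pow_succ K t).symm
      · have : (t + 1) * K = t * K + K := by ring
        omega
      · intro L h
        exact Nat.lcm_dvd (hL L (fun k e hk => h k e (by omega))) (h _ _ le_rfl)
      · right
        refine ⟨rfl, fun k hk2 hkn => ?_⟩
        rcases Nat.lt_or_ge t k with h | h
        · have : k = t + 1 := by omega
          subst this
          exact ⟨e, Nat.dvd_lcm_right _ _⟩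
        · obtain ⟨e', he'⟩ := hk k hk2 h
          exact ⟨e', he'.trans (Nat.dvd_lcm_left _ _)⟩
      · intro N hN a ha
        have hNr' : N ≡ r' [ZMOD M] :=
          hN.of_dvd (by exact_mod_cast Nat.dvd_lcm_left M (V (t + 1) e))
        have hr'r : (r' : ℤ) ≡ r [ZMOD M] := (Int.natCast_modEq_iff).mpr h1
        have hNV : N ≡ r' [ZMOD (V (t + 1) e : ℕ)] :=
          hN.of_dvd (by exact_mod_cast Nat.dvd_lcm_right M (V (t + 1) e))
        have ha1 := hrec N (hNr'.trans hr'r) a ha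
        have ha2 := ha.2 t hn e ha1
        have hg := h5 N hNV
        have e1 : a t = N - ((s + t + e : ℕ) : ℤ) := by rw [ha1]; push_cast; ring
        rw [e1] at ha2
        rw [hg] at ha2
        rw [ha2]
        have : (((e + g - 1 : ℕ)) : ℤ) = (e : ℤ) + g - 1 := by
          rw [Nat.cast_sub (by omega)]; push_cast; ring
        rw [this]
        push_cast
        ring

end Pool.Agent.X32.Gcr
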