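import Mathlib
import Pool.Agent.X32.Gcr.Walk

/-! # The sum of the primes below `y`, by Chebyshev; counting in residue classes -/

set_option autoImplicit false

namespace Pool.Agent.X32.Gcr

open Finset Real Filter Topology Chebyshev

lemma small_eventually : ∀ᶠ y : ℕ in atTop,
    3 / 10 * (y : ℝ) ≤ y * Real.log 2 / 2 - Real.log (y + 1) - 2 * √y * Real.log y := by
  have h1 : Tendsto (fun y : ℕ => (y : ℝ)) atTop atTop := tendsto_natCast_atTop_atTop
  have h2 : ∀ᶠ x : ℝ in atTop, Real.log x ≤ 1 / 1000 * x ^ (1 / 2 : ℝ) := by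
    have := (isLittleO_log_rpow_atTop (show (0 : ℝ) < 1 / 2 by norm_num)).bound
      (show (0 : ℝ) < 1 / 1000 by norm_num)
    filter_upwards [this, eventually_ge_atTop (1 : ℝ)] with x hx hx1
    rwa [Real.norm_eq_abs, Real.norm_eq_abs, abs_of_nonneg (Real.log_nonneg hx1),
      abs_of_nonneg (Real.rpow_nonneg (by linarith) _)] at hx
  filter_upwards [h1.eventually h2, eventually_ge_atTop 100] with y hy1 hy2
  have hy : (100 : ℝ) ≤ y := by exact_mod_cast hy2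
  have hl2 := Real.log_two_gt_d9
  rw [← Real.sqrt_eq_rpow] at hy1
  have hs : √(y : ℝ) * √(y : ℝ) = y := Real.mul_self_sqrt (by linarith)
  have hs1 : √(y : ℝ) ≤ y / 10 := by
    rw [Real.sqrt_le_left (by positivity)]
    nlinarith
  have hs0 : 0 ≤ √(y : ℝ) := Real.sqrt_nonneg _
  have h3 : Real.log ((y : ℝ) + 1) ≤ Real.log y + 1 := by
    have h4 : (y : ℝ) + 1 ≤ y * Real.exp 1 := by
      have := Real.exp_one_gt_d9
      nlinarith
    calc Real.log ((y : ℝ) + 1) ≤ Real.log (y * Real.exp 1) :=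
          Real.log_le_log (by linarith) h4
      _ = Real.log y + 1 := by
          rw [Real.log_mul (by linarith) (Real.exp_pos 1).ne', Real.log_exp]
  have h5 : √(y : ℝ) * Real.log y ≤ 1 / 1000 * y := by
    calc √(y : ℝ) * Real.log y ≤ √(y : ℝ) * (1 / 1000 * √(y : ℝ)) := by gcongr
      _ = 1 / 1000 * (√(y : ℝ) * √(y : ℝ)) := by ring
      _ = 1 / 1000 * y := by rw [hs]
  nlinarith

/-- the sum of `p - 1` over the primes `p ≤ y` -/
lemma sum_primes : ∃ y₀ : ℕ, ∀ y : ℕ, y₀ ≤ y →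
    (y : ℝ) ^ 2 / (16 * Real.log y) ≤ ((∑ q ∈ Nat.primesLE y, (q - 1) : ℕ) : ℝ) := by
  obtain ⟨y₁, h1⟩ := (small_eventually).exists_forall_of_atTop
  refine ⟨max y₁ 1000, fun y hy => ?_⟩
  have hy1 := h1 y ((le_max_left _ _).trans hy)
  have hy2 : 1000 ≤ y := (le_max_right _ _).trans hy
  have hyR : (1000 : ℝ) ≤ y := by exact_mod_cast hy2
  have hlog : 0 < Real.log y := Real.log_pos (by linarith)
  set m : ℕ := y / 4 with hm
  have hm4 : (m : ℝ) ≤ y / 4 := by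
    rw [hm]
    exact_mod_cast Nat.cast_div_le (m := y) (n := 4) (α := ℝ)
  have hm4' : (y : ℝ) / 4 - 1 ≤ m := by
    have : y < 4 * (m + 1) := by omega
    have : (y : ℝ) < 4 * ((m : ℝ) + 1) := by exact_mod_cast this
    linarith
  have hth1 := Chebyshev.theta_ge y
  have hth2 : θ (m : ℝ) ≤ Real.log 4 * m := Chebyshev.theta_le_log4_mul_x (by positivity)
  have hl4 : Real.log 4 = 2 * Real.log 2 := by
    rw [show (4 : ℝ) = 2 ^ 2 by norm_num, Real.log_pow]; norm_num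
  have hl2 : 0 < Real.log 2 := Real.log_pos (by norm_num)
  have hth3 : θ (m : ℝ) ≤ y * Real.log 2 / 2 := by
    rw [hl4] at hth2
    calc θ (m : ℝ) ≤ 2 * Real.log 2 * m := hth2
      _ ≤ 2 * Real.log 2 * (y / 4) := by gcongr
      _ = y * Real.log 2 / 2 := by ring
  have hdiff : 3 / 10 * (y : ℝ) ≤ θ (y : ℝ) - θ (m : ℝ) := by linarith
  -- the primes between
  set S : Finset ℕ := Nat.primesLE y \ Nat.primesLE m with hS
  have hsub : Nat.primesLE m ⊆ Nat.primesLE y := Nat.primesLE_mono (Nat.div_le_self y 4)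
  have h2 : θ (y : ℝ) - θ (m : ℝ) = ∑ p ∈ S, Real.log p := by
    rw [Chebyshev.theta_eq_sum_primesLE_log, Chebyshev.theta_eq_sum_primesLE_log, hS,
      ← Finset.sum_sdiff hsub]
    ring
  have h3 : ∑ p ∈ S, Real.log p ≤ S.card * Real.log y := by
    have : ∀ p ∈ S, Real.log (p : ℝ) ≤ Real.log y := by
      intro p hp
      have hp1 := Nat.mem_primesLE.mp (Finset.mem_sdiff.mp hp).1
      apply Real.log_le_log (by exact_mod_cast hp1.2.pos) (by exact_mod_cast hp1.1)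
    have := Finset.sum_le_card_nsmul S (fun p : ℕ => Real.log (p : ℝ)) _ this
    rwa [nsmul_eq_mul] at this
  have h4 : 3 / 10 * (y : ℝ) / Real.log y ≤ S.card := by
    rw [div_le_iff₀ hlog]; linarith
  have h5 : m * S.card ≤ ∑ q ∈ S, (q - 1) := by
    have : ∀ q ∈ S, m ≤ q - 1 := by
      intro q hq
      have hq1 := Finset.mem_sdiff.mp hq
      have hq2 := Nat.mem_primesLE.mp hq1.1
      have : ¬ q ≤ m := fun h => hq1.2 (Nat.mem_primesLE.mpr ⟨h, hq2.2⟩)
      omega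
    have := Finset.card_nsmul_le_sum S (fun q => q - 1) m this
    rw [smul_eq_mul] at this
    linarith [this, mul_comm m S.card]
  have h6 : ∑ q ∈ S, (q - 1) ≤ ∑ q ∈ Nat.primesLE y, (q - 1) :=
    Finset.sum_le_sum_of_subset Finset.sdiff_subset
  have h7 : ((m * S.card : ℕ) : ℝ) ≤ ((∑ q ∈ Nat.primesLE y, (q - 1) : ℕ) : ℝ) := by
    exact_mod_cast h5.trans h6
  refine le_trans ?_ h7
  rw [Nat.cast_mul]
  have h8 : (y : ℝ) ^ 2 / (16 * Real.log y) = (y / 4 - 0) * ((1 / 4) * y / Real.log y) := by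
    field_simp
    ring
  rw [h8]
  have h9 : (y : ℝ) / 4 * ((1 / 4) * y / Real.log y) ≤
      (y / 4 - 1) * (3 / 10 * (y : ℝ) / Real.log y) := by
    rw [mul_div_assoc', mul_div_assoc', div_le_div_iff_of_pos_right hlog]
    nlinarith
  calc ((y : ℝ) / 4 - 0) * ((1 / 4) * y / Real.log y)
      = (y : ℝ) / 4 * ((1 / 4) * y / Real.log y) := by ring
    _ ≤ (y / 4 - 1) * (3 / 10 * (y : ℝ) / Real.log y) := h9
    _ ≤ m * S.card := by
        apply mul_le_mul hm4' h4 (by positivity) (by positivity)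

/-- a residue class to a small modulus has many members -/
lemma count_class (ε : ℝ) (hε : 0 < ε) (hε1 : ε ≤ 1 / 2) : ∃ X₀ : ℝ, ∀ X : ℝ, X₀ ≤ X →
    ∀ M r : ℕ, 1 ≤ M → (M : ℝ) ≤ X ^ (ε / 2) →
      X ^ (1 - ε) ≤ (((Finset.Icc 1 ⌊X⌋₊).filter (fun N : ℕ =>
        √X ≤ (N : ℝ) ∧ N ≡ r [MOD M])).card : ℝ) := by
  have h1 : ∀ᶠ X : ℝ in atTop, 4 ≤ X ^ (ε / 2) := by
    exact (tendsto_rpow_atTop (by positivity)).eventually_ge_atTop 4
  have h2 : ∀ᶠ X : ℝ in atTop, 12 ≤ X ^ (1 / 4 : ℝ) :=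
    (tendsto_rpow_atTop (by norm_num)).eventually_ge_atTop 12
  obtain ⟨X₀, hX₀⟩ := ((h1.and h2).and (eventually_ge_atTop 1)).exists_forall_of_atTop
  refine ⟨X₀, fun X hX M r hM hMX => ?_⟩
  obtain ⟨⟨hX1, hX2⟩, hX3⟩ := hX₀ X hX
  have hX0 : 0 < X := by linarith
  have hMR : (1 : ℝ) ≤ M := by exact_mod_cast hM
  -- members `r % M + k M`
  set K1 : ℕ := ⌈√X⌉₊ with hK1
  set K2 : ℕ := ⌊X / M⌋₊ with hK2
  have hinj : Set.InjOn (fun k : ℕ => r % M + k * M) ((Finset.Ico K1 K2 : Finset ℕ) : Set ℕ) := by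
    intro a _ b _ h
    simp only at h
    have : a * M = b * M := by omega
    exact Nat.eq_of_mul_eq_mul_right hM this
  have hmaps : ∀ k ∈ Finset.Ico K1 K2, r % M + k * M ∈ (Finset.Icc 1 ⌊X⌋₊).filter (fun N : ℕ =>
        √X ≤ (N : ℝ) ∧ N ≡ r [MOD M]) := by
    intro k hk
    obtain ⟨hk1, hk2⟩ := Finset.mem_Ico.mp hk
    have hkX : √X ≤ (k : ℝ) := Nat.ceil_le.mp hk1
    have hs1 : 1 ≤ √X := by
      rw [Real.one_le_sqrt]; exact hX3
    have hle : (k : ℝ) ≤ ((r % M + k * M : ℕ) : ℝ) := by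
      have : k ≤ r % M + k * M := by
        have := Nat.le_mul_of_pos_right k hM
        omega
      exact_mod_cast this
    rw [Finset.mem_filter, Finset.mem_Icc]
    refine ⟨⟨?_, ?_⟩, hkX.trans hle, ?_⟩
    · have : (1 : ℝ) ≤ ((r % M + k * M : ℕ) : ℝ) := by linarith
      exact_mod_cast this
    · apply Nat.le_floor
      have h3 : r % M + k * M ≤ (k + 1) * M := by
        have := (Nat.mod_lt r hM).le
        nlinarith
      have h4 : ((k + 1 : ℕ) : ℝ) ≤ X / M := by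
        have : k + 1 ≤ K2 := hk2
        calc ((k + 1 : ℕ) : ℝ) ≤ (K2 : ℝ) := by exact_mod_cast this
          _ ≤ X / M := Nat.floor_le (by positivity)
      calc ((r % M + k * M : ℕ) : ℝ) ≤ (((k + 1) * M : ℕ) : ℝ) := by exact_mod_cast h3
        _ = ((k + 1 : ℕ) : ℝ) * M := by push_cast; ring
        _ ≤ X / M * M := by gcongr
        _ = X := by field_simp
    · unfold Nat.ModEq
      rw [Nat.add_mul_mod_self_right, Nat.mod_mod]
  have hcard := Finset.card_le_card_of_injOn _ hmaps hinj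
  rw [Nat.card_Ico] at hcard
  have h5 : X / X ^ (ε / 2) ≤ X / M := by
    apply div_le_div_of_nonneg_left hX0.le (by linarith) hMX
  have h6 : X / X ^ (ε / 2) = X ^ (1 - ε / 2) := by
    rw [Real.rpow_sub hX0, Real.rpow_one]
  have h7 : X ^ (1 - ε / 2) = X ^ (1 - ε) * X ^ (ε / 2) := by
    rw [← Real.rpow_add hX0]; ring_nf
  have h8 : √X * X ^ (1 / 4 : ℝ) ≤ X ^ (1 - ε / 2) := by
    rw [Real.sqrt_eq_rpow, ← Real.rpow_add hX0]
    apply Real.rpow_le_rpow_of_exponent_le hX3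
    linarith
  have hs1 : 1 ≤ √X := by rw [Real.one_le_sqrt]; exact hX3
  have h9 : (K1 : ℝ) < √X + 1 := Nat.ceil_lt_add_one (Real.sqrt_nonneg X)
  have h10 : X / M - 1 < K2 := Nat.sub_one_lt_floor _
  have hpos : 0 < X ^ (1 - ε) := Real.rpow_pos_of_pos hX0 _
  have h11 : X ^ (1 - ε) ≤ ((K2 - K1 : ℕ) : ℝ) := by
    have h12 : 4 * X ^ (1 - ε) ≤ X / M := by
      calc 4 * X ^ (1 - ε) ≤ X ^ (1 - ε) * X ^ (ε / 2) := by nlinarith
        _ ≤ X / M := by rw [← h7, ← h6]; exact h5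
    have h13 : 12 * √X ≤ X / M := by
      calc 12 * √X ≤ √X * X ^ (1 / 4 : ℝ) := by nlinarith
        _ ≤ X / M := h8.trans (by rw [← h6]; exact h5)
    have h14 : X ^ (1 - ε) ≤ (K2 : ℝ) - K1 := by linarith
    have h15 : K1 ≤ K2 := by
      have : (K1 : ℝ) ≤ K2 := by linarith
      exact_mod_cast this
    rw [Nat.cast_sub h15]
    exact h14
  calc X ^ (1 - ε) ≤ ((K2 - K1 : ℕ) : ℝ) := h11
    _ ≤ _ := by exact_mod_cast hcard

end Pool.Agent.X32.Gcr
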