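import Mathlib
import Pool.Agent.X32.Gcr.Sum

/-! # Large excess of the greedy walk -/

set_option autoImplicit false

namespace Pool.Agent.X32.Gcr

open Finset Real Filter Topology Chebyshev

/-- after the walk: the zero comes at most `N - s - e` -/
lemma tail (a : ℕ → ℤ) (n₀ t f : ℕ) (hn : n₀ ≤ t) (ht : 0 ≤ a t)
    (hstep : ∀ n, t ≤ n → 0 < a n → 0 ≤ a (n + 1) ∧ a (n + 1) ≤ a n - 1)
    (hf : IsLeast {n : ℕ | n₀ ≤ n ∧ a n = 0} f) : (f : ℤ) ≤ t + a t := by
  by_contra hcon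
  push Not at hcon
  have htf : t < f := by
    have : (t : ℤ) < f := by linarith
    exact_mod_cast this
  have hne : ∀ n, t ≤ n → n < f → a n ≠ 0 := by
    intro n h1 h2 h3
    have := hf.2 ⟨hn.trans h1, h3⟩
    omega
  have hall : ∀ k : ℕ, t + k < f → 0 < a (t + k) ∧ a (t + k) ≤ a t - k := by
    intro k
    induction k with
    | zero =>
      intro h
      have := hne t le_rfl htf
      simp only [add_zero, Nat.cast_zero, sub_zero]
      omega
    | succ k ih =>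
      intro h
      obtain ⟨h1, h2⟩ := ih (by omega)
      obtain ⟨h3, h4⟩ := hstep (t + k) (by omega) h1
      have h5 := hne (t + (k + 1)) (by omega) h
      have e1 : t + (k + 1) = t + k + 1 := by ring
      rw [e1] at h5 ⊢
      push_cast
      omega
  have h1 := hall (a t).toNat (by
    have : ((t + (a t).toNat : ℕ) : ℤ) < f := by
      push_cast
      rw [Int.toNat_of_nonneg ht]
      exact hcon
    exact_mod_cast this)
  rw [Int.toNat_of_nonneg ht] at h1
  omega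

lemma wt_ge (M κ T : ℕ) (hκ : 2 ≤ κ) (hM : M ≠ 0) (V : ℕ → ℕ → ℕ)
    (hV : ∀ q e, q.Prime → q ∣ V (κ * q) e)
    (h : ∀ k, 2 ≤ k → k ≤ T → ∃ e', V k e' ∣ M) :
    ∑ q ∈ Nat.primesLE (T / κ), (q - 1) ≤ wt M := by
  unfold wt
  apply Finset.sum_le_sum_of_subset
  intro q hq
  obtain ⟨h1, h2⟩ := Nat.mem_primesLE.mp hq
  have h3 : κ * q ≤ T := by
    calc κ * q ≤ κ * (T / κ) := Nat.mul_le_mul le_rfl h1
      _ ≤ T := Nat.mul_div_le T κ
  obtain ⟨e', he'⟩ := h (κ * q) (by nlinarith [h2.two_le]) h3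
  exact Nat.mem_primeFactors.mpr ⟨h2, (hV q e' h2).trans he', hM⟩

lemma sum_lower (κ : ℕ) (hκ : 2 ≤ κ) : ∃ T₀ : ℕ, ∀ T : ℕ, T₀ ≤ T →
    (T : ℝ) ^ 2 / (64 * κ ^ 2 * Real.log T) ≤
      ((∑ q ∈ Nat.primesLE (T / κ), (q - 1) : ℕ) : ℝ) := by
  obtain ⟨y₀, hy₀⟩ := sum_primes
  refine ⟨κ * (y₀ + 4), fun T hT => ?_⟩
  have hκ0 : 0 < κ := by omega
  have hy : y₀ + 4 ≤ T / κ := by
    rw [Nat.le_div_iff_mul_le hκ0]
    calc (y₀ + 4) * κ = κ * (y₀ + 4) := by ring
      _ ≤ T := hT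
  set y : ℕ := T / κ with hydef
  have h1 := hy₀ y (by omega)
  have hκR : (2 : ℝ) ≤ κ := by exact_mod_cast hκ
  have h2 : (T : ℝ) ≤ 2 * κ * y := by
    have h3 : T < κ * (y + 1) := by
      rw [hydef]
      exact Nat.lt_mul_div_succ T hκ0
    have h4 : (T : ℝ) ≤ κ * (y + 1) := by exact_mod_cast h3.le
    have h5 : (4 : ℝ) ≤ y := by exact_mod_cast (show 4 ≤ y by omega)
    nlinarith
  have hyT : y ≤ T := Nat.div_le_self _ _
  have hy4 : (4 : ℝ) ≤ y := by exact_mod_cast (show 4 ≤ y by omega)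
  have hlogy : 0 < Real.log y := Real.log_pos (by linarith)
  have hlog : Real.log y ≤ Real.log T := Real.log_le_log (by linarith) (by exact_mod_cast hyT)
  have hlogT : 0 < Real.log T := hlogy.trans_le hlog
  have hκ1 : (0 : ℝ) < κ := by linarith
  refine le_trans ?_ h1
  rw [div_le_div_iff₀ (by positivity) (by positivity)]
  have h6 : (T : ℝ) ^ 2 ≤ (2 * κ * y) ^ 2 := by
    apply pow_le_pow_left₀ (by positivity) h2
  calc (T : ℝ) ^ 2 * (16 * Real.log y) ≤ (2 * κ * y) ^ 2 * (16 * Real.log T) := by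
        apply mul_le_mul h6 (by linarith) (by positivity) (by positivity)
    _ = (y : ℝ) ^ 2 * (64 * κ ^ 2 * Real.log T) := by ring

/-- second arguments that do not depend on the excess -/
theorem main_lcm (s κ b : ℕ) (hκ : 2 ≤ κ) (V : ℕ → ℕ → ℕ) (hV0 : ∀ n e, V n e ≠ 0)
    (hVb : ∀ n e, V n e ≤ n + b) (hVκ : ∀ q e, q.Prime → q ∣ V (κ * q) e)
    (ε : ℝ) (hε : 0 < ε) (hε1 : ε ≤ 1) :
    ∃ c : ℝ, 0 < c ∧ ∃ X₀ : ℝ, ∀ X : ℝ, X₀ ≤ X → ∃ M r e t : ℕ, 1 ≤ M ∧ 1 ≤ t ∧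
      (M : ℝ) ≤ X ^ (ε / 2) ∧ c * (Real.log X ^ 2 / Real.log (Real.log X)) ≤ e ∧
      ((s : ℝ) + t + e ≤ √X) ∧
      ∀ N : ℤ, N ≡ r [ZMOD M] → ∀ a : ℕ → ℤ, Rec s V N a → a t = N - s - t - e := by
  obtain ⟨T₀, hT₀⟩ := sum_lower κ hκ
  set th : ℝ := ε / 24 with hth
  have hth0 : 0 < th := by positivity
  have hth1 : th ≤ 1 := by rw [hth]; linarith
  have hκR : (2 : ℝ) ≤ κ := by exact_mod_cast hκ
  refine ⟨th ^ 2 / (256 * κ ^ 2), by positivity, ?_⟩
  have hL : Tendsto (fun X : ℝ => Real.log X) atTop atTop := Real.tendsto_log_atTop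
  have hLL : Tendsto (fun X : ℝ => Real.log (Real.log X)) atTop atTop := hL.comp hL
  have ev1 := hL.eventually_ge_atTop ((T₀ + 2) / th + 24 * b / ε + 1)
  have ev2 := hLL.eventually_ge_atTop 1
  have ev3 : ∀ᶠ X : ℝ in atTop, (s : ℝ) + Real.log X + 2 * Real.log X ^ 2 + b * Real.log X ≤ √X := by
    have h1 : (fun X : ℝ => Real.log X ^ (2 : ℝ)) =o[atTop] fun X => X ^ (1 / 2 : ℝ) :=
      isLittleO_log_rpow_rpow_atTop 2 (by norm_num)
    have h2 := h1.bound (show (0 : ℝ) < 1 / (s + 4 + b) by positivity)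
    filter_upwards [h2, hL.eventually_ge_atTop 1, eventually_ge_atTop 1] with X h3 h4 h5
    rw [Real.norm_eq_abs, Real.norm_eq_abs, abs_of_nonneg (by positivity),
      abs_of_nonneg (by positivity), ← Real.sqrt_eq_rpow, Real.rpow_two] at h3
    have h6 : ((s : ℝ) + 4 + b) * Real.log X ^ 2 ≤ √X := by
      calc ((s : ℝ) + 4 + b) * Real.log X ^ 2 ≤ (s + 4 + b) * (1 / (s + 4 + b) * √X) := by gcongr
        _ = √X := by field_simp
    have h7 : Real.log X ≤ Real.log X ^ 2 := by nlinarith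
    have hs0 : (0 : ℝ) ≤ s := by positivity
    have hb0 : (0 : ℝ) ≤ b := by positivity
    nlinarith [mul_le_mul_of_nonneg_left h7 hb0, mul_le_mul_of_nonneg_left (h4.trans h7) hs0]
  obtain ⟨X₀, hX₀⟩ := ((ev1.and ev2).and (ev3.and (eventually_ge_atTop 1))).exists_forall_of_atTop
  refine ⟨X₀, fun X hX => ?_⟩
  obtain ⟨⟨e1, e2⟩, e3, e4⟩ := hX₀ X hX
  set L : ℝ := Real.log X with hLdef
  have hX0 : 0 < X := by linarith
  have hb0 : (0 : ℝ) ≤ 24 * b / ε := by positivity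
  have hTth : (0 : ℝ) ≤ (T₀ + 2) / th := by positivity
  have hL1 : 1 ≤ L := by linarith
  set T : ℕ := ⌊th * L⌋₊ with hT
  have hthL : (T₀ : ℝ) + 2 ≤ th * L := by
    have : (T₀ + 2) / th ≤ L := by linarith
    rw [div_le_iff₀ hth0] at this
    linarith
  have hTle : (T : ℝ) ≤ th * L := Nat.floor_le (by positivity)
  have hTgt : th * L - 1 < T := Nat.sub_one_lt_floor _
  have hT0R : (T₀ : ℝ) + 1 < T := by linarith
  have hT0 : T₀ + 1 < T := by exact_mod_cast hT0R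
  have hThalf : th * L / 2 ≤ T := by linarith
  have hTL : (T : ℝ) ≤ L := hTle.trans (by nlinarith)
  set K : ℕ := T + b with hK
  obtain ⟨M, r, e, t, hM0, -, ht1, htT, hwt, heB, hLc, halt, hrec⟩ :=
    walk s V hV0 K (T ^ 2) (by omega) T (fun n e hn _ => (hVb n e).trans (by omega)) T (by omega)
      le_rfl
  refine ⟨M, r, e, t, Nat.pos_of_ne_zero hM0, ht1, ?_, ?_, ?_, hrec⟩
  · -- the modulus
    have h1 : M ∣ Nat.lcmUpto (T + b) := by
      apply hLc
      intro k e hk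
      unfold Nat.lcmUpto
      apply Finset.dvd_lcm (f := id) (b := V k e)
      rw [Finset.mem_Icc]
      exact ⟨Nat.one_le_iff_ne_zero.mpr (hV0 k e), (hVb k e).trans (by omega)⟩
    have h2 : M ≤ Nat.lcmUpto (T + b) := Nat.le_of_dvd (Nat.lcmUpto_pos _) h1
    have h3 : Real.log M ≤ (Real.log 4 + 4) * ((T + b : ℕ) : ℝ) := by
      calc Real.log M ≤ Real.log (Nat.lcmUpto (T + b)) :=
            Real.log_le_log (by exact_mod_cast Nat.pos_of_ne_zero hM0) (by exact_mod_cast h2)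
        _ = ψ ((T + b : ℕ) : ℝ) := (psi_eq_log_lcmUpto _).symm
        _ ≤ _ := psi_le_const_mul_self (by positivity)
    have h4 : Real.log 4 ≤ 2 := by
      have : Real.log 4 = 2 * Real.log 2 := by
        rw [show (4 : ℝ) = 2 ^ 2 by norm_num, Real.log_pow]; norm_num
      have h5 := Real.log_two_lt_d9
      linarith
    have h5 : Real.log M ≤ ε / 2 * L := by
      have h6 : 24 * (b : ℝ) ≤ ε * L := by
        have : 24 * (b : ℝ) / ε ≤ L := by linarith
        rw [div_le_iff₀ hε] at this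
        linarith
      have h7 : ((T + b : ℕ) : ℝ) ≤ th * L + b := by push_cast; linarith
      calc Real.log M ≤ (Real.log 4 + 4) * ((T + b : ℕ) : ℝ) := h3
        _ ≤ 6 * (th * L + b) := by
            apply mul_le_mul (by linarith) h7 (by positivity) (by norm_num)
        _ = ε * L / 4 + 6 * b := by rw [hth]; ring
        _ ≤ ε / 2 * L := by linarith
    rw [← Real.exp_log (show (0 : ℝ) < M by exact_mod_cast Nat.pos_of_ne_zero hM0),
      Real.rpow_def_of_pos hX0]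
    apply Real.exp_le_exp.mpr
    rw [← hLdef]
    linarith
  · -- the excess
    have hc : th ^ 2 / (256 * κ ^ 2) * (L ^ 2 / Real.log L) =
        (th * L / 2) ^ 2 / (64 * κ ^ 2 * Real.log L) := by
      field_simp
      ring
    rw [hc]
    have hTsq : (th * L / 2) ^ 2 ≤ (T : ℝ) ^ 2 := pow_le_pow_left₀ (by positivity) hThalf 2
    rcases halt with h | h
    · have h1 : ((T : ℝ)) ^ 2 ≤ e := by exact_mod_cast h
      refine le_trans ?_ h1
      rw [div_le_iff₀ (by positivity)]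
      calc (th * L / 2) ^ 2 ≤ (T : ℝ) ^ 2 * 1 := by linarith
        _ ≤ (T : ℝ) ^ 2 * (64 * κ ^ 2 * Real.log L) := by
            gcongr
            nlinarith
    · have h1 := (wt_ge M κ T hκ hM0 V hVκ h.2).trans hwt
      have h2 := hT₀ T (by omega)
      have h3 : ((∑ q ∈ Nat.primesLE (T / κ), (q - 1) : ℕ) : ℝ) ≤ e := by exact_mod_cast h1
      refine le_trans ?_ (h2.trans h3)
      have hT1 : (1 : ℝ) < T := by
        have : (0 : ℝ) ≤ T₀ := by positivity
        linarith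
      have hlT : 0 < Real.log T := Real.log_pos hT1
      have hlTL : Real.log T ≤ Real.log L := Real.log_le_log (by linarith) hTL
      apply div_le_div₀ (by positivity) hTsq (by positivity)
      gcongr
  · have h1 : (e : ℝ) ≤ (T : ℝ) ^ 2 + T * (T + b) := by
      have : e ≤ T ^ 2 + T * (T + b) := by rw [← hK]; exact heB
      exact_mod_cast this
    have h2 : (t : ℝ) ≤ T := by exact_mod_cast htT
    have h3 : (T : ℝ) ^ 2 ≤ L ^ 2 := pow_le_pow_left₀ (by positivity) hTL 2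
    have hb1 : (0 : ℝ) ≤ b := by positivity
    have h4 : (T : ℝ) * (T + b) ≤ L * (L + b) := by gcongr
    nlinarith

end Pool.Agent.X32.Gcr
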