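import Mathlib
import Pool.Agent.X32.Gcr.Main

/-! # Large excess of the greedy walk: second arguments depending on the excess -/

set_option autoImplicit false

namespace Pool.Agent.X32.Gcr

open Finset Real Filter Topology

/-- second arguments that may depend on the excess -/
theorem main_mul (s κ b : ℕ) (hκ : 2 ≤ κ) (V : ℕ → ℕ → ℕ) (hV0 : ∀ n e, V n e ≠ 0)
    (hVb : ∀ n e, V n e ≤ n + 2 * e + b) (hVκ : ∀ q e, q.Prime → q ∣ V (κ * q) e)
    (ε : ℝ) (hε : 0 < ε) (hε1 : ε ≤ 1) :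
    ∃ c : ℝ, 0 < c ∧ ∃ X₀ : ℝ, ∀ X : ℝ, X₀ ≤ X → ∃ M r e t : ℕ, 1 ≤ M ∧ 1 ≤ t ∧
      (M : ℝ) ≤ X ^ (ε / 2) ∧ c * (Real.log X ^ 2 / Real.log (Real.log X) ^ 3) ≤ e ∧
      ((s : ℝ) + t + e ≤ √X) ∧
      ∀ N : ℤ, N ≡ r [ZMOD M] → ∀ a : ℕ → ℤ, Rec s V N a → a t = N - s - t - e := by
  obtain ⟨T₀, hT₀⟩ := sum_lower κ hκ
  set th : ℝ := ε / 6 with hth
  have hth0 : 0 < th := by positivity
  have hth1 : th ≤ 1 := by rw [hth]; linarith
  have hκR : (2 : ℝ) ≤ κ := by exact_mod_cast hκ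
  refine ⟨th ^ 2 / (256 * κ ^ 2), by positivity, ?_⟩
  have hL : Tendsto (fun X : ℝ => Real.log X) atTop atTop := Real.tendsto_log_atTop
  have hLL : Tendsto (fun X : ℝ => Real.log (Real.log X)) atTop atTop := hL.comp hL
  have hq : ∀ᶠ y : ℝ in atTop, (T₀ + 2) * Real.log y ≤ th * y := by
    have h1 := (Real.isLittleO_log_id_atTop).bound (show (0 : ℝ) < th / (T₀ + 2) by positivity)
    filter_upwards [h1, eventually_ge_atTop 1] with y h2 h3
    rw [Real.norm_eq_abs, Real.norm_eq_abs, abs_of_nonneg (Real.log_nonneg h3), id,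
      abs_of_nonneg (by linarith)] at h2
    calc (T₀ + 2) * Real.log y ≤ (T₀ + 2) * (th / (T₀ + 2) * y) := by gcongr
      _ = th * y := by field_simp
  have ev1 := hL.eventually hq
  have ev1' := hL.eventually_ge_atTop ((b : ℝ) + 6)
  have ev2 := hLL.eventually_ge_atTop 1
  have ev3 : ∀ᶠ X : ℝ in atTop, (s + 6 : ℝ) * Real.log X ^ 4 ≤ √X := by
    have h1 : (fun X : ℝ => Real.log X ^ (4 : ℝ)) =o[atTop] fun X => X ^ (1 / 2 : ℝ) :=
      isLittleO_log_rpow_rpow_atTop 4 (by norm_num)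
    have h2 := h1.bound (show (0 : ℝ) < 1 / (s + 6) by positivity)
    filter_upwards [h2, hL.eventually_ge_atTop 1, eventually_ge_atTop 1] with X h3 h4 h5
    rw [Real.norm_eq_abs, Real.norm_eq_abs, abs_of_nonneg (by positivity),
      abs_of_nonneg (by positivity), ← Real.sqrt_eq_rpow,
      show (4 : ℝ) = ((4 : ℕ) : ℝ) by norm_num, Real.rpow_natCast] at h3
    calc ((s : ℝ) + 6) * Real.log X ^ 4 ≤ (s + 6) * (1 / (s + 6) * √X) := by gcongr
        _ = √X := by field_simp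
  obtain ⟨X₀, hX₀⟩ := (((ev1.and ev1').and ev2).and
    (ev3.and (eventually_ge_atTop 1))).exists_forall_of_atTop
  refine ⟨X₀, fun X hX => ?_⟩
  obtain ⟨⟨⟨e1, e1'⟩, e2⟩, e3, e4⟩ := hX₀ X hX
  set L : ℝ := Real.log X with hLdef
  set LL : ℝ := Real.log L with hLLdef
  have hX0 : 0 < X := by linarith
  have hb1 : (0 : ℝ) ≤ b := by positivity
  have hs1 : (0 : ℝ) ≤ s := by positivity
  have hL6 : 6 ≤ L := by linarith
  have hL0 : 0 < L := by linarith
  have hLL0 : 0 < LL := by linarith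
  set T : ℕ := ⌊th * L / LL⌋₊ with hT
  have hthL : (T₀ : ℝ) + 2 ≤ th * L / LL := by
    rw [le_div_iff₀ hLL0]; exact e1
  have hTle : (T : ℝ) ≤ th * L / LL := Nat.floor_le (by positivity)
  have hTgt : th * L / LL - 1 < T := Nat.sub_one_lt_floor _
  have hT0R : (T₀ : ℝ) + 1 < T := by linarith
  have hT0 : T₀ + 1 < T := by exact_mod_cast hT0R
  have hThalf : th * L / LL / 2 ≤ T := by
    have : (0 : ℝ) ≤ T₀ := by positivity
    linarith
  have hTL : (T : ℝ) ≤ L := by
    refine hTle.trans ?_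
    rw [div_le_iff₀ hLL0]
    nlinarith
  set B : ℕ := ⌈L ^ 2⌉₊ with hB
  have hB1 : L ^ 2 ≤ B := Nat.le_ceil _
  have hB2 : (B : ℝ) < L ^ 2 + 1 := Nat.ceil_lt_add_one (by positivity)
  set K : ℕ := T + 2 * B + b with hK
  have hKL : (K : ℝ) ≤ L ^ 3 := by
    have : (K : ℝ) = T + 2 * B + b := by rw [hK]; push_cast; ring
    rw [this]
    nlinarith [mul_le_mul_of_nonneg_left hL6 (sq_nonneg L)]
  have hK1 : 1 ≤ K := by omega
  obtain ⟨M, r, e, t, hM0, hMK, ht1, htT, hwt, heB, -, halt, hrec⟩ :=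
    walk s V hV0 K B hK1 T (fun n e hn he => (hVb n e).trans (by omega)) T (by omega) le_rfl
  refine ⟨M, r, e, t, Nat.pos_of_ne_zero hM0, ht1, ?_, ?_, ?_, hrec⟩
  · -- the modulus
    have h3 : Real.log M ≤ T * Real.log K := by
      calc Real.log M ≤ Real.log ((K ^ T : ℕ) : ℝ) :=
            Real.log_le_log (by exact_mod_cast Nat.pos_of_ne_zero hM0) (by exact_mod_cast hMK)
        _ = T * Real.log K := by push_cast; rw [Real.log_pow]
    have h4 : Real.log K ≤ 3 * LL := by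
      calc Real.log K ≤ Real.log (L ^ 3) := Real.log_le_log (by exact_mod_cast hK1) hKL
        _ = 3 * LL := by rw [Real.log_pow]; norm_num [hLLdef]
    have h5 : Real.log M ≤ ε / 2 * L := by
      calc Real.log M ≤ T * Real.log K := h3
        _ ≤ (th * L / LL) * (3 * LL) := by
            apply mul_le_mul hTle h4 (Real.log_nonneg (by exact_mod_cast hK1)) (by positivity)
        _ = 3 * th * L := by field_simp
        _ = ε / 2 * L := by rw [hth]; ring
    rw [← Real.exp_log (show (0 : ℝ) < M by exact_mod_cast Nat.pos_of_ne_zero hM0),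
      Real.rpow_def_of_pos hX0]
    apply Real.exp_le_exp.mpr
    rw [← hLdef]
    linarith
  · -- the excess
    have hc : th ^ 2 / (256 * κ ^ 2) * (L ^ 2 / LL ^ 3) =
        (th * L / LL / 2) ^ 2 / (64 * κ ^ 2 * LL) := by
      field_simp
      ring
    rw [hc]
    have hTsq : (th * L / LL / 2) ^ 2 ≤ (T : ℝ) ^ 2 := pow_le_pow_left₀ (by positivity) hThalf 2
    rcases halt with h | h
    · have h1 : L ^ 2 ≤ e := hB1.trans (by exact_mod_cast h)
      refine le_trans ?_ h1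
      rw [div_le_iff₀ (by positivity)]
      calc (th * L / LL / 2) ^ 2 ≤ (T : ℝ) ^ 2 := hTsq
        _ ≤ L ^ 2 := pow_le_pow_left₀ (by positivity) hTL 2
        _ = L ^ 2 * 1 := by ring
        _ ≤ L ^ 2 * (64 * κ ^ 2 * LL) := by
            gcongr
            nlinarith
    · have h1 := (wt_ge M κ T hκ hM0 V hVκ h.2).trans hwt
      have h2 := hT₀ T (by omega)
      have h3 : ((∑ q ∈ Nat.primesLE (T / κ), (q - 1) : ℕ) : ℝ) ≤ e := by exact_mod_cast h1
      refine le_trans ?_ (h2.trans h3)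
      have hT1 : (1 : ℝ) < T := by
        have : (0 : ℝ) ≤ T₀ := by positivity
        linarith
      have hlT : 0 < Real.log T := Real.log_pos hT1
      have hlTL : Real.log T ≤ LL := Real.log_le_log (by linarith) hTL
      apply div_le_div₀ (by positivity) hTsq (by positivity)
      gcongr
  · have h1 : (e : ℝ) ≤ B + T * K := by
      exact_mod_cast heB
    have h2 : (t : ℝ) ≤ T := by exact_mod_cast htT
    have h4 : (T : ℝ) * K ≤ L * L ^ 3 := by gcongr
    have h5 : L ≤ L ^ 4 := by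
      have : 1 ≤ L ^ 3 := one_le_pow₀ (by linarith)
      nlinarith
    have h6 : L ^ 2 ≤ L ^ 4 := pow_le_pow_right₀ (by linarith) (by norm_num)
    have h7 : (1 : ℝ) ≤ L ^ 4 := one_le_pow₀ (by linarith)
    nlinarith [mul_le_mul_of_nonneg_left h7 hs1]

end Pool.Agent.X32.Gcr
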